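import Pool.Agent.Helper15.GS.GoalsD
import Pool.Agent.Helper80.HS.CL
import Pool.Agent.Helper87.HS.CLG
import Pool.Agent.Helper62.SP.FINV

/-! # GS, packet LDI: the Laplacian of `log det (Q + τ h) - log det Q` -/

open Complex Metric Set Filter Topology MeasureTheory
open scoped ContDiff ComplexConjugate ComplexOrder Manifold Matrix

namespace Pool.Agent.Helper59.GS

open Pool.Agent.Helper95.Lin Pool.Agent.Helper16.Abund Pool.Agent.Helper92.Orb
  Pool.Agent.Helper10.SP Pool.Agent.Helper95.RK Pool.Agent.Helper57.HS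
  Pool.Agent.Helper15.HS Pool.Agent.Helper15.GS

/-- The curvature as a matrix, `CM X k l i j = crv X x i j k l`. -/
noncomputable def CM {n : ℕ} (X : Cn n → Matrix (Fin n) (Fin n) ℂ) (k l : Fin n) (x : Cn n) :
    Matrix (Fin n) (Fin n) ℂ :=
  - cdM k (cdbM l X) x + cdM k X x * (X x)⁻¹ * cdbM l X x

theorem crv_CM {n : ℕ} (X : Cn n → Matrix (Fin n) (Fin n) ℂ) (x : Cn n) (i j k l : Fin n) :
    crv X x i j k l = CM X k l x i j := rfl

theorem cdM_add' {n m : ℕ} (hWIRT : S_WIRT) {W : Set (Cn n)} (hW : IsOpen W)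
    {X Y : Cn n → Matrix (Fin m) (Fin m) ℂ}
    (hX : ∀ i j, ContDiffOn ℝ ∞ (fun x => X x i j) W)
    (hY : ∀ i j, ContDiffOn ℝ ∞ (fun x => Y x i j) W) {x : Cn n} (hx : x ∈ W) (l : Fin n)
    (c : ℂ) :
    cdM l (fun y => X y + c • Y y) x = cdM l X x + c • cdM l Y x ∧
    cdbM l (fun y => X y + c • Y y) x = cdbM l X x + c • cdbM l Y x := by
  constructor
  · ext i j
    have hD := Pool.Agent.Helper80.HS.isDer_cd hWIRT hW hx l
    have h1 := hD.add (fun y => X y i j) (fun y => c * Y y i j) (hX i j)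
      (contDiffOn_const.mul (hY i j))
    have h2 := hD.mul (fun _ => c) (fun y => Y y i j) contDiffOn_const (hY i j)
    have h3 := hD.const c
    rw [h2, h3] at h1
    simp only [cdM, Matrix.of_apply, Matrix.add_apply, Matrix.smul_apply, smul_eq_mul]
    rw [h1]
    ring
  · ext i j
    have hD := Pool.Agent.Helper80.HS.isDer_cdb hWIRT hW hx l
    have h1 := hD.add (fun y => X y i j) (fun y => c * Y y i j) (hX i j)
      (contDiffOn_const.mul (hY i j))
    have h2 := hD.mul (fun _ => c) (fun y => Y y i j) contDiffOn_const (hY i j)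
    have h3 := hD.const c
    rw [h2, h3] at h1
    simp only [cdbM, Matrix.of_apply, Matrix.add_apply, Matrix.smul_apply, smul_eq_mul]
    rw [h1]
    ring

theorem cdbM_smul' {n m : ℕ} (hWIRT : S_WIRT) {W : Set (Cn n)} (hW : IsOpen W)
    {Y : Cn n → Matrix (Fin m) (Fin m) ℂ}
    (hY : ∀ i j, ContDiffOn ℝ ∞ (fun x => Y x i j) W) {x : Cn n} (hx : x ∈ W) (l : Fin n)
    (c : ℂ) :
    cdbM l (fun y => c • Y y) x = c • cdbM l Y x := by
  ext i j
  have hD := Pool.Agent.Helper80.HS.isDer_cdb hWIRT hW hx l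
  have h2 := hD.mul (fun _ => c) (fun y => Y y i j) contDiffOn_const (hY i j)
  have h3 := hD.const c
  rw [h3] at h2
  simp only [cdbM, Matrix.of_apply, Matrix.smul_apply, smul_eq_mul]
  rw [h2]
  ring

/-- `LM (log det X) = - tr (curvature * X⁻¹)`. -/
theorem LM_ld {n : ℕ} (hWIRT : S_WIRT) (hMCAL : S_MCAL) {W : Set (Cn n)} (hW : IsOpen W)
    (X : Cn n → Matrix (Fin n) (Fin n) ℂ) (hs : ∀ i j, ContDiffOn ℝ ∞ (fun x => X x i j) W)
    (hp : ∀ x ∈ W, (X x).PosDef) {x : Cn n} (hx : x ∈ W) (k l : Fin n) :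
    LM (ld X) x k l = - Matrix.trace (CM X k l x * (X x)⁻¹) := by
  have hd : ∀ x ∈ W, (X x).det ≠ 0 := fun y hy => (hp y hy).det_pos.ne'
  have hu : IsUnit (X x).det := (hd x hx).isUnit
  have h1 := (hMCAL W hW X X hs hs).1
  have hL := (hMCAL W hW X X hs hs).2.2.2.2 hp
  have hLs : ContDiffOn ℝ ∞ (fun y => ((ld X y : ℝ) : ℂ)) W :=
    Complex.ofRealCLM.contDiff.comp_contDiffOn hL.1
  have hG : ∀ p q, ContDiffOn ℝ ∞ (fun y => Gam X k y p q) W := by
    have h4 := ((hMCAL W hW X X hs hs).2.2.2.1 hd).1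
    exact (hMCAL W hW (cdM k X) (fun y => (X y)⁻¹) (fun a b => (h1 k a b).1) h4).2.1
  have e1 : LM (ld X) x k l = cdb l (cd k (fun y => ((ld X y : ℝ) : ℂ))) x := by
    rw [← ((hWIRT W hW _ _ hLs hLs).2.2.2.2.1 k l x hx).2.2]
    rfl
  have e2 : cdb l (cd k (fun y => ((ld X y : ℝ) : ℂ))) x =
      cdb l (fun y => Matrix.trace (Gam X k y)) x :=
    Pool.Agent.Helper87.HS.cdb_congr (Pool.Agent.Helper87.HS.eqOn_nhds hW hx
      fun y hy => (hL.2 y hy k).1) l
  rw [e1, e2, Pool.Agent.Helper87.HS.cdb_tr hW hG hx]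
  have e3 := Pool.Agent.Helper80.HS.cdbM_Gam hMCAL hW X hs hd hx k l
  have e4 : cdbM l (Gam X k) x * X x = - CM X k l x := by
    rw [e3, CM]
    abel
  have e5 : cdbM l (Gam X k) x = - CM X k l x * (X x)⁻¹ := by
    rw [← e4, Matrix.mul_assoc, Matrix.mul_nonsing_inv _ hu, Matrix.mul_one]
  rw [e5, Matrix.neg_mul, Matrix.trace_neg]

theorem trL_eq {n : ℕ} (Q : Cn n → Matrix (Fin n) (Fin n) ℂ) (u : Cn n → ℝ) (x : Cn n) :
    trL Q u x = ∑ k, ∑ l, (Q x)⁻¹ l k * LM u x k l := by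
  rw [trL, Matrix.trace]
  simp only [Matrix.diag_apply, Matrix.mul_apply]
  rw [Finset.sum_comm]

/-- Pairing of the curvature of `h` with the matrix `M` and `K`. -/
theorem crvP_CM {n : ℕ} (h : Cn n → Matrix (Fin n) (Fin n) ℂ) (M K : Matrix (Fin n) (Fin n) ℂ)
    (x : Cn n) :
    ∑ k, ∑ l, K l k * Matrix.trace (CM h k l x * M) = crvP h M K x := by
  have a1 : ∀ k l, K l k * Matrix.trace (CM h k l x * M) =
      ∑ i, ∑ j, M j i * K l k * crv h x i j k l := by
    intro k l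
    rw [Matrix.trace, Finset.mul_sum]
    refine Finset.sum_congr rfl fun i _ => ?_
    rw [Matrix.diag_apply, Matrix.mul_apply, Finset.mul_sum]
    refine Finset.sum_congr rfl fun j _ => ?_
    rw [crv_CM]
    ring
  simp only [a1]
  exact Pool.Agent.Helper80.HS.sum4 fun i j k l => M j i * K l k * crv h x i j k l

theorem ldi (hWIRT : S_WIRT) (hMCAL : S_MCAL) (hCSY : S_CSY) : S_LDI := by
  intro n W hW Q h η τ hτ hQ hQp hrho hhs hhp x hx
  have hQs := hQ.smooth
  have hQh := hQ.herm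
  have hhh : ∀ x ∈ W, (h x).IsHermitian := fun y hy => (hhp y hy).1
  have hmp : ∀ x ∈ W, (mS τ h Q x).PosDef := by
    intro y hy
    have : ((τ : ℂ) • h y).PosDef := (hhp y hy).smul (by exact_mod_cast hτ)
    exact (hQp y hy).add this
  have hms : ∀ i j, ContDiffOn ℝ ∞ (fun x => mS τ h Q x i j) W := by
    intro i j
    exact (hQs i j).add (contDiffOn_const.mul (hhs i j))
  have hQd : ∀ x ∈ W, (Q x).det ≠ 0 := fun y hy => (hQp y hy).det_pos.ne'
  have hhd : ∀ x ∈ W, (h x).det ≠ 0 := fun y hy => (hhp y hy).det_pos.ne'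
  have hmd : ∀ x ∈ W, (mS τ h Q x).det ≠ 0 := fun y hy => (hmp y hy).det_pos.ne'
  -- names at `x`
  set a := Q x with ha
  set b := (τ : ℂ) • h x with hb
  set M := (mS τ h Q x)⁻¹ with hM
  set K := (Q x)⁻¹ with hK
  have hmab : mS τ h Q x = a + b := rfl
  have haK : a * K = 1 := Matrix.mul_nonsing_inv _ (hQd x hx).isUnit
  have hKa : K * a = 1 := Matrix.nonsing_inv_mul _ (hQd x hx).isUnit
  have hmM : (a + b) * M = 1 := by
    rw [← hmab]; exact Matrix.mul_nonsing_inv _ (hmd x hx).isUnit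
  have hMm : M * (a + b) = 1 := by
    rw [← hmab]; exact Matrix.nonsing_inv_mul _ (hmd x hx).isUnit
  have hhi : (h x)⁻¹ * h x = 1 := Matrix.nonsing_inv_mul _ (hhd x hx).isUnit
  have hih : h x * (h x)⁻¹ = 1 := Matrix.mul_nonsing_inv _ (hhd x hx).isUnit
  -- first derivatives
  have dQ : ∀ k, cdM k Q x = (Gam h k x + Adf h Q k x) * a := by
    intro k
    rw [Adf, add_sub_cancel, Gam, Matrix.mul_assoc, hKa, Matrix.mul_one]
  have dh : ∀ k, cdM k h x = Gam h k x * h x := by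
    intro k
    rw [Gam, Matrix.mul_assoc, hhi, Matrix.mul_one]
  have dQb : ∀ l, cdbM l Q x = a * (Gam h l x + Adf h Q l x)ᴴ := by
    intro l
    rw [(Pool.Agent.Helper80.HS.cdM_herm hMCAL hW Q hQs hQh hx l).2, dQ,
      Matrix.conjTranspose_mul, (hQh x hx).eq]
  have dhb : ∀ l, cdbM l h x = h x * (Gam h l x)ᴴ := by
    intro l
    rw [(Pool.Agent.Helper80.HS.cdM_herm hMCAL hW h hhs hhh hx l).2, dh,
      Matrix.conjTranspose_mul, (hhh x hx).eq]
  have hadd := fun (k : Fin n) => cdM_add' hWIRT hW hQs hhs hx k (τ : ℂ)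
  have dm : ∀ k, cdM k (mS τ h Q) x = (Gam h k x) * (a + b) + Adf h Q k x * a := by
    intro k
    have := (hadd k).1
    have e : mS τ h Q = fun y => Q y + (τ : ℂ) • h y := rfl
    rw [e, this, dQ, dh, hb]
    simp only [Matrix.add_mul, Matrix.mul_add, Matrix.mul_smul]
    abel
  have dmb : ∀ l, cdbM l (mS τ h Q) x = (a + b) * (Gam h l x)ᴴ + a * (Adf h Q l x)ᴴ := by
    intro l
    have := (hadd l).2
    have e : mS τ h Q = fun y => Q y + (τ : ℂ) • h y := rfl
    rw [e, this, dQb, dhb, hb]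
    simp only [Matrix.add_mul, Matrix.mul_add, Matrix.smul_mul, Matrix.conjTranspose_add]
    abel
  -- item 1
  have hmi := (hMCAL W hW (mS τ h Q) (mS τ h Q) hms hms).2.2.2.1 hmd
  have item1 : ∀ l, cdbM l (YS τ h Q) x =
      - (YS τ h Q x * Q x * (Adf h Q l x)ᴴ * (mS τ h Q x)⁻¹) := by
    intro l
    have e : YS τ h Q = fun y => (τ : ℂ) • (h y * (mS τ h Q y)⁻¹) := rfl
    have hpr := hMCAL W hW h (fun y => (mS τ h Q y)⁻¹) hhs hmi.1
    rw [e, cdbM_smul' hWIRT hW hpr.2.1 hx l, (hpr.2.2.1 x hx l).2.1, (hmi.2 x hx l).2, dhb, dmb,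
      ← hM, ← ha]
    have e1 : M * ((a + b) * (Gam h l x)ᴴ + a * (Adf h Q l x)ᴴ) * M =
        (Gam h l x)ᴴ * M + M * a * (Adf h Q l x)ᴴ * M := by
      rw [Matrix.mul_add, ← Matrix.mul_assoc M (a + b), hMm, Matrix.one_mul, Matrix.add_mul,
        ← Matrix.mul_assoc M a]
    rw [e1]
    simp only [Matrix.mul_neg, Matrix.mul_add, smul_add, smul_neg, Matrix.smul_mul,
      Matrix.mul_assoc]
    abel
  have hLm := (hMCAL W hW (mS τ h Q) (mS τ h Q) hms hms).2.2.2.2 hmp
  have hLQ := (hMCAL W hW Q Q hQs hQs).2.2.2.2 hQp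
  have hDs : ContDiffOn ℝ ∞ (fun y => ld (mS τ h Q) y - ld Q y) W := hLm.1.sub hLQ.1
  refine ⟨item1, hDs, ?_⟩
  -- second derivative
  have ddm : ∀ k l, cdM k (cdbM l (mS τ h Q)) x =
      cdM k (cdbM l Q) x + (τ : ℂ) • cdM k (cdbM l h) x := by
    intro k l
    have s1 : ∀ i j, ContDiffOn ℝ ∞ (fun x => cdbM l Q x i j) W := fun i j =>
      ((hMCAL W hW Q Q hQs hQs).1 l i j).2
    have s2 : ∀ i j, ContDiffOn ℝ ∞ (fun x => cdbM l h x i j) W := fun i j =>
      ((hMCAL W hW h h hhs hhs).1 l i j).2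
    have e1 := (cdM_add' hWIRT hW s1 s2 hx k (τ : ℂ)).1
    rw [← e1]
    exact (Pool.Agent.Helper80.HS.cdM_congr hW hx
      (fun y hy => (cdM_add' hWIRT hW hQs hhs hy l (τ : ℂ)).2) k).1
  have haa : a - a * M * a = a * M * b := by
    have : a * (M * (a + b)) = a := by rw [hMm, Matrix.mul_one]
    rw [Matrix.mul_add, Matrix.mul_add] at this
    calc a - a * M * a = (a * (M * a) + a * (M * b)) - a * M * a := by rw [this]
      _ = a * M * b := by rw [← Matrix.mul_assoc, ← Matrix.mul_assoc]; abel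
  have hC : ∀ k l, CM (mS τ h Q) k l x = CM Q k l x + (τ : ℂ) • CM h k l x -
      Adf h Q k x * (a * M * b) * (Adf h Q l x)ᴴ := by
    intro k l
    have c1 : cdM k (mS τ h Q) x * (mS τ h Q x)⁻¹ * cdbM l (mS τ h Q) x =
        Gam h k x * (a + b) * (Gam h l x)ᴴ + Gam h k x * a * (Adf h Q l x)ᴴ +
        Adf h Q k x * a * (Gam h l x)ᴴ + Adf h Q k x * (a * M * a) * (Adf h Q l x)ᴴ := by
      rw [dm, dmb, ← hM]
      have e1 : (Gam h k x * (a + b) + Adf h Q k x * a) * M =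
          Gam h k x + Adf h Q k x * a * M := by
        rw [Matrix.add_mul, Matrix.mul_assoc (Gam h k x), hmM, Matrix.mul_one]
      rw [e1, Matrix.add_mul, Matrix.mul_add, Matrix.mul_add]
      have e2 : Adf h Q k x * a * M * ((a + b) * (Gam h l x)ᴴ) =
          Adf h Q k x * a * (Gam h l x)ᴴ := by
        rw [Matrix.mul_assoc (Adf h Q k x * a) M, ← Matrix.mul_assoc M (a + b), hMm,
          Matrix.one_mul]
      rw [e2]
      simp only [Matrix.mul_assoc]
      abel
    have c2 : cdM k Q x * (Q x)⁻¹ * cdbM l Q x =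
        Gam h k x * a * (Gam h l x)ᴴ + Gam h k x * a * (Adf h Q l x)ᴴ +
        Adf h Q k x * a * (Gam h l x)ᴴ + Adf h Q k x * a * (Adf h Q l x)ᴴ := by
      rw [dQ, dQb, ← hK, Matrix.mul_assoc (Gam h k x + Adf h Q k x) a K, haK, Matrix.mul_one,
        Matrix.conjTranspose_add]
      simp only [Matrix.add_mul, Matrix.mul_add, Matrix.mul_assoc]
      abel
    have c3 : (τ : ℂ) • (cdM k h x * (h x)⁻¹ * cdbM l h x) = Gam h k x * b * (Gam h l x)ᴴ := by
      rw [dh, dhb, Matrix.mul_assoc (Gam h k x), hih, Matrix.mul_one, hb]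
      simp only [Matrix.mul_smul, Matrix.smul_mul, Matrix.mul_assoc]
    simp only [CM]
    rw [c1, c2, ddm, smul_add, c3, ← haa]
    simp only [Matrix.mul_sub, Matrix.sub_mul, Matrix.mul_add, Matrix.add_mul, smul_neg]
    abel
  -- the traces
  have hsplit : trL Q (fun y => ld (mS τ h Q) y - ld Q y) x =
      trL Q (ld (mS τ h Q)) x - trL Q (ld Q) x := by
    have e1 := Pool.Agent.Helper62.SP.LM_add hWIRT hW hLQ.1 hDs hx
    have e2 : (fun y => ld Q y + (ld (mS τ h Q) y - ld Q y)) = ld (mS τ h Q) := by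
      funext y; ring
    rw [e2] at e1
    simp only [trL]
    rw [e1, Matrix.mul_add, Matrix.trace_add]
    ring
  have hcQ : ∀ N : Matrix (Fin n) (Fin n) ℂ,
      ∑ k, ∑ l, K l k * Matrix.trace (CM Q k l x * N) = - Matrix.trace (rho Q x * N) := by
    intro N
    have c3 := ((hCSY W hW Q hQp hQs x hx).2.2 hQ).2
    have h1 : (∑ k, ∑ l, K l k • CM Q k l x) = - rho Q x := by
      ext i j
      rw [Matrix.neg_apply, ← c3 i j]
      simp only [Matrix.sum_apply, Matrix.smul_apply, smul_eq_mul]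
      rfl
    calc ∑ k, ∑ l, K l k * Matrix.trace (CM Q k l x * N)
        = Matrix.trace ((∑ k, ∑ l, K l k • CM Q k l x) * N) := by
          simp only [Finset.sum_mul, Matrix.trace_sum, Matrix.smul_mul, Matrix.trace_smul,
            smul_eq_mul]
      _ = _ := by rw [h1, Matrix.neg_mul, Matrix.trace_neg]
  have t1 : trL Q (ld (mS τ h Q)) x = Matrix.trace (rho Q x * M) - τ * crvP h M K x +
      ∑ k, ∑ l, K l k * Matrix.trace (Adf h Q k x * (a * M * b) * (Adf h Q l x)ᴴ * M) := by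
    rw [trL_eq]
    have e1 : ∀ k l, K l k * LM (ld (mS τ h Q)) x k l =
        - (K l k * Matrix.trace (CM Q k l x * M)) - τ * (K l k * Matrix.trace (CM h k l x * M)) +
        K l k * Matrix.trace (Adf h Q k x * (a * M * b) * (Adf h Q l x)ᴴ * M) := by
      intro k l
      rw [LM_ld hWIRT hMCAL hW (mS τ h Q) hms hmp hx k l, hC, ← hM]
      simp only [Matrix.sub_mul, Matrix.add_mul, Matrix.smul_mul, Matrix.trace_sub,
        Matrix.trace_add, Matrix.trace_smul, smul_eq_mul]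
      ring
    simp only [← hK]
    simp only [e1, Finset.sum_add_distrib, Finset.sum_sub_distrib, Finset.sum_neg_distrib,
      ← Finset.mul_sum]
    rw [hcQ, crvP_CM]
    ring
  have t2 : trL Q (ld Q) x = Matrix.trace (rho Q x * K) := by
    rw [trL_eq]
    have e1 : ∀ k l, K l k * LM (ld Q) x k l = - (K l k * Matrix.trace (CM Q k l x * K)) := by
      intro k l
      rw [LM_ld hWIRT hMCAL hW Q hQs hQp hx k l, ← hK]
      ring
    simp only [← hK]
    simp only [e1, Finset.sum_neg_distrib]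
    rw [hcQ, neg_neg]
  have hY : Matrix.trace (a * M) = n - Matrix.trace (YS τ h Q x) := by
    have e1 : a * M = 1 - b * M := by
      rw [← hmM, Matrix.add_mul]; abel
    have e2 : YS τ h Q x = b * M := by
      rw [YS, hb, hM, Matrix.smul_mul]
    rw [e1, e2, Matrix.trace_sub, Matrix.trace_one]
    simp
  rw [hsplit, t1, t2, hrho x hx, ← ha, Matrix.sub_mul, Matrix.sub_mul, haK, Matrix.trace_sub,
    Matrix.trace_sub, hY, Matrix.trace_one, Er1, Er2, ← hM, ← hK, ← ha, ← hb]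
  simp only [Complex.add_re, Complex.sub_re, Complex.natCast_re, Fintype.card_fin,
    Complex.re_ofReal_mul]
  ring

end Pool.Agent.Helper59.GS
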